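import Pool.Agent.Helper92.MO.Res
import Pool.Agent.Helper92.RK.Alg

set_option autoImplicit false

/-!
# The learner for formulas with few minority occurrences of every variable
-/

namespace Pool.Agent.Helper92.MO

open Finset
open Pool.Agent.NPC
open Pool.Agent.H637R3.UC
open Pool.Agent.Helper92.AM
open Pool.Agent.Helper92.RK (Tm Sat vr Con tl)

variable {n : ℕ}

theorem mem_tl {T : List (ℕ × Bool)} {l : Fin n × Bool} :
    l ∈ (tl T : Tm n) ↔ ((l.1 : ℕ), l.2) ∈ T := by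
  simp [tl]

open Classical in
theorem convert_dnf (k : ℕ) (F : List (List (ℕ × Bool))) (σ : ℕ → Bool)
    (hσ : ∀ i, (F.filter fun T => decide ((i, !σ i) ∈ T)).length ≤ k) :
    ∃ F' : Finset (Tm n), (∀ T ∈ F', Con T) ∧
      (∀ x : Fin n → Bool, AM.val F (List.ofFn x) = true ↔ ∃ T ∈ F', Sat T x) ∧
      ∀ i : Fin n, (F'.filter fun T => (i, !σ i) ∈ T).card ≤ k := by
  set F0 := F.filter fun T => decide ((∀ l ∈ T, l.1 < n) ∧ Con (tl T : Tm n)) with hF0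
  set F' : Finset (Tm n) := (F0.map (fun T => (tl T : Tm n))).toFinset with hF'
  have hmem : ∀ T', T' ∈ F' ↔ ∃ T ∈ F, (∀ l ∈ T, l.1 < n) ∧ Con (tl T : Tm n) ∧ tl T = T' := by
    intro T'
    rw [hF', List.mem_toFinset, List.mem_map]
    constructor
    · rintro ⟨T, h1, h2⟩
      rw [hF0, List.mem_filter, decide_eq_true_eq] at h1
      exact ⟨T, h1.1, h1.2.1, h1.2.2, h2⟩
    · rintro ⟨T, h1, h2, h3, h4⟩
      exact ⟨T, List.mem_filter.2 ⟨h1, by rw [decide_eq_true_eq]; exact ⟨h2, h3⟩⟩, h4⟩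
  refine ⟨F', ?_, ?_, ?_⟩
  · intro T' hT'
    obtain ⟨T, _, _, h3, h4⟩ := (hmem T').1 hT'
    rw [← h4]
    exact h3
  · intro x
    rw [val_iff]
    constructor
    · rintro ⟨T, hT, hs⟩
      rw [sat_iff] at hs
      refine ⟨tl T, (hmem _).2 ⟨T, hT, fun l hl => (hs l hl).1, ?_, rfl⟩, ?_⟩
      · intro l hl l' hl' e
        rw [mem_tl] at hl hl'
        obtain ⟨_, a1⟩ := hs _ hl
        obtain ⟨_, a2⟩ := hs _ hl'
        simp only [Fin.eta] at a1 a2
        refine Prod.ext e ?_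
        rw [← a1, ← a2, e]
      · intro l hl
        rw [mem_tl] at hl
        obtain ⟨_, a1⟩ := hs _ hl
        simpa using a1
    · rintro ⟨T', hT', hs⟩
      obtain ⟨T, h1, h2, _, h4⟩ := (hmem T').1 hT'
      refine ⟨T, h1, (sat_iff T x).2 fun l hl => ⟨h2 l hl, ?_⟩⟩
      exact hs (⟨l.1, h2 l hl⟩, l.2) (by rw [← h4, mem_tl]; exact hl)
  · intro i
    have h1 : F'.filter (fun T => (i, !σ i) ∈ T) ⊆
        ((F.filter fun T => decide (((i : ℕ), !σ i) ∈ T)).map (fun T => (tl T : Tm n))).toFinset := by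
      intro T' hT'
      rw [Finset.mem_filter] at hT'
      obtain ⟨T, h1, _, _, h4⟩ := (hmem T').1 hT'.1
      rw [List.mem_toFinset, List.mem_map]
      refine ⟨T, List.mem_filter.2 ⟨h1, ?_⟩, h4⟩
      rw [decide_eq_true_eq]
      have := hT'.2
      rw [← h4, mem_tl] at this
      exact this
    refine (Finset.card_le_card h1).trans ((List.toFinset_card_le _).trans ?_)
    rw [List.length_map]
    exact hσ i

theorem mo_prob {n k e s d t m : ℕ} (he : 1 ≤ e) (hs : 1 ≤ s) (hd : 1 ≤ d)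
    (ht : ((n + 2) * s ^ (Nat.log 2 s + 1) * d) ^ ca k e ≤ t) (hm : t ^ ca k e ≤ m)
    (F : List (List (ℕ × Bool))) (hF : F.length ≤ s) (σ : ℕ → Bool)
    (hσ : ∀ i, (F.filter fun T => decide ((i, !σ i) ∈ T)).length ≤ k) :
    AM.prob (fun x : Fin m → Fin n → Bool => 1 / (e : ℝ) < AM.prob (fun y : Fin n → Bool =>
      evalBits (learnBits k e (List.replicate t (),
        AM.sample (fun y => AM.val F (List.ofFn y)) x), List.ofFn y) ≠ AM.val F (List.ofFn y))) ≤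
      1 / d := by
  obtain ⟨ℓ, hℓ⟩ : ∃ ℓ, ℓ = Nat.log 2 s := ⟨_, rfl⟩
  rw [← hℓ] at ht
  have hA : 1 ≤ (n + 2) * s ^ (ℓ + 1) * d :=
    Nat.mul_pos (Nat.mul_pos (by omega) (Nat.pow_pos hs)) hd
  obtain ⟨q, hq⟩ : ∃ q, q = 2 ^ 16 * s ^ (16 * (ℓ + 1)) := ⟨_, rfl⟩
  have hq1 : 1 ≤ q := by
    rw [hq]
    exact Nat.mul_pos (by norm_num) (Nat.pow_pos hs)
  have hcalc := dnf_calc (n := n) (ℓ := ℓ) hs hd
  rw [← hq] at hcalc
  obtain ⟨h1, h2⟩ := pow_step hA (by norm_num) hcalc ht hm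
  obtain ⟨F', c1, c2, c3⟩ := convert_dnf (n := n) k F σ hσ
  refine learn_prob' he hq1 hd h1 h2 (fun y => AM.val F (List.ofFn y)) ?_ ?_
  · intro hD hI R hR
    exact residual_mo he F' c1 _ c2 (fun i => σ i) c3 hD hI R hR
  have h1 : s ≤ 2 ^ (ℓ + 1) := by
    rw [hℓ]
    exact (Nat.lt_pow_succ_log_self (by norm_num) s).le
  have h2 := tinf_dnf (n := n) F hF h1
  have h3 := tinf_nonneg (sf fun x : Fin n → Bool => AM.val F (List.ofFn x))
  have h4 : tinf (sf fun x : Fin n → Bool => AM.val F (List.ofFn x)) ^ 2 ≤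
      (2 * ((ℓ + 1 : ℕ) + 1)) ^ 2 := pow_le_pow_left₀ h3 h2 2
  refine h4.trans ?_
  have h5 : 2 ^ (16 + ℓ * (16 * (ℓ + 1))) ≤ q := by
    rw [hq, pow_add, pow_mul 2 ℓ]
    refine Nat.mul_le_mul_left _ (Nat.pow_le_pow_left ?_ _)
    rw [hℓ]
    exact Nat.pow_log_le_self 2 (by omega)
  have h6 := logb_mono (Nat.one_le_pow _ _ (by norm_num)) h5
  rw [logb_pow_two] at h6
  refine le_trans ?_ h6
  push_cast
  have h7 : (0 : ℝ) ≤ ℓ := Nat.cast_nonneg _
  nlinarith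

end Pool.Agent.Helper92.MO
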