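import Pool.Agent.Helper92.MO.Main
import Pool.Agent.Helper92.RK.Defs
import Pool.Agent.Helper70.RK.SAT
import Pool.Agent.Helper70.RK.IND

set_option autoImplicit false

/-!
# Detection of the influential coordinates by small sets
-/

namespace Pool.Agent.Helper92.MO

open Finset
open Pool.Agent.H637R3.UC
open Pool.Agent.Helper92.AM
open Pool.Agent.Helper92.RK (Tm Sat vr Con pr S_SAT)

variable {n : ℕ}

theorem hSAT : S_SAT := Pool.Agent.Helper70.RK.SAT.main Pool.Agent.Helper70.RK.IND.main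

open Classical in
theorem card_sat (T : Tm n) (hT : Con T) :
    ((univ.filter fun x : Fin n → Bool => Sat T x).card : ℝ) * 2 ^ T.card = 2 ^ n := by
  have h := hSAT n T hT
  unfold pr at h
  rw [div_eq_iff (by positivity)] at h
  have h2 : ((univ.filter fun x : Fin n → Bool => Sat T x).card : ℝ) =
      (1 / 2) ^ T.card * 2 ^ n := by
    rw [← h]
  rw [h2, mul_assoc, mul_comm ((2 : ℝ) ^ n), ← mul_assoc, ← mul_pow]
  norm_num

theorem pick {E : Finset (Fin n → Bool)} {A : Tm n} {L : ℕ} (hL : A.card ≤ L)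
    (hE : ∀ x ∈ E, ∃ l ∈ A, x l.1 ≠ l.2) (h0 : 0 < E.card) :
    ∃ l ∈ A, E.card ≤ L * (E.filter (fun x => x l.1 ≠ l.2)).card := by
  by_contra hc
  push Not at hc
  have hA : A.Nonempty := by
    obtain ⟨x, hx⟩ := Finset.card_pos.1 h0
    obtain ⟨l, hl, _⟩ := hE x hx
    exact ⟨l, hl⟩
  have h1 : E ⊆ A.biUnion fun l => E.filter (fun x => x l.1 ≠ l.2) := by
    intro x hx
    obtain ⟨l, hl, h⟩ := hE x hx
    exact Finset.mem_biUnion.2 ⟨l, hl, Finset.mem_filter.2 ⟨hx, h⟩⟩
  have h2 : E.card ≤ ∑ l ∈ A, (E.filter (fun x => x l.1 ≠ l.2)).card :=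
    (Finset.card_le_card h1).trans Finset.card_biUnion_le
  have h3 : ∑ l ∈ A, L * (E.filter (fun x => x l.1 ≠ l.2)).card < ∑ _l ∈ A, E.card :=
    Finset.sum_lt_sum_of_nonempty hA fun l hl => hc l hl
  rw [← Finset.mul_sum, Finset.sum_const, smul_eq_mul] at h3
  have h4 : L * E.card ≤ L * ∑ l ∈ A, (E.filter (fun x => x l.1 ≠ l.2)).card :=
    Nat.mul_le_mul_left _ h2
  have h5 : A.card * E.card ≤ L * E.card := Nat.mul_le_mul_right _ hL
  omega

theorem Con.sub {T A : Tm n} (hT : Con T) (h : A ⊆ T) : Con A :=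
  fun l hl l' hl' e => hT l (h hl) l' (h hl') e

theorem pick2 {E : Finset (Fin n → Bool)} {T : Tm n} {i : Fin n} {L : ℕ} (hT : Con T)
    (hL : 1 ≤ L) (hE : ∀ x ∈ E, ∃ l ∈ T, l.1 ≠ i ∧ x l.1 ≠ l.2)
    (h0 : 2 * 2 ^ n ≤ 2 ^ L * E.card) :
    ∃ l ∈ T, l.1 ≠ i ∧ E.card ≤ 2 * L * (E.filter (fun x => x l.1 ≠ l.2)).card := by
  classical
  have hpos : 0 < E.card := by
    rcases Nat.eq_zero_or_pos E.card with h | h
    · rw [h] at h0
      have : 0 < 2 ^ n := Nat.pow_pos (by norm_num)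
      omega
    · exact h
  set T' := T.filter (fun l => l.1 ≠ i) with hT'
  have hE' : ∀ x ∈ E, ∃ l ∈ T', x l.1 ≠ l.2 := by
    intro x hx
    obtain ⟨l, h1, h2, h3⟩ := hE x hx
    exact ⟨l, Finset.mem_filter.2 ⟨h1, h2⟩, h3⟩
  by_cases hc : T'.card ≤ L
  · obtain ⟨l, hl, h⟩ := pick hc hE' hpos
    rw [hT', Finset.mem_filter] at hl
    refine ⟨l, hl.1, hl.2, h.trans ?_⟩
    exact Nat.mul_le_mul_right _ (by omega)
  · push Not at hc
    obtain ⟨A, hA1, hA2⟩ := Finset.exists_subset_card_eq hc.le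
    have hAc : Con A := Con.sub hT (hA1.trans (Finset.filter_subset _ _))
    set E1 := E.filter (fun x => ∃ l ∈ A, x l.1 ≠ l.2) with hE1
    have h1 : (E.filter (fun x => ¬ ∃ l ∈ A, x l.1 ≠ l.2)).card * 2 ^ L ≤ 2 ^ n := by
      have h2 : E.filter (fun x => ¬ ∃ l ∈ A, x l.1 ≠ l.2) ⊆
          univ.filter fun x : Fin n → Bool => Sat A x := by
        intro x hx
        rw [Finset.mem_filter] at hx ⊢
        refine ⟨Finset.mem_univ _, ?_⟩
        intro l hl
        by_contra hc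
        exact hx.2 ⟨l, hl, hc⟩
      have h3 := Finset.card_le_card h2
      have h4 := card_sat A hAc
      rw [hA2] at h4
      have h5 : (univ.filter fun x : Fin n → Bool => Sat A x).card * 2 ^ L = 2 ^ n := by
        exact_mod_cast h4
      rw [← h5]
      exact Nat.mul_le_mul_right _ h3
    have h2 : E1.card + (E.filter (fun x => ¬ ∃ l ∈ A, x l.1 ≠ l.2)).card = E.card :=
      Finset.card_filter_add_card_filter_not _
    have h3 : E.card ≤ 2 * E1.card := by
      have h4 : 0 < 2 ^ L := Nat.pow_pos (by norm_num)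
      have h5 : 2 ^ L * (2 * (E.filter (fun x => ¬ ∃ l ∈ A, x l.1 ≠ l.2)).card) ≤
          2 ^ L * E.card := by
        calc 2 ^ L * (2 * (E.filter (fun x => ¬ ∃ l ∈ A, x l.1 ≠ l.2)).card) =
            2 * ((E.filter (fun x => ¬ ∃ l ∈ A, x l.1 ≠ l.2)).card * 2 ^ L) := by ring
          _ ≤ 2 * 2 ^ n := Nat.mul_le_mul_left _ h1
          _ ≤ _ := h0
      have h6 := Nat.le_of_mul_le_mul_left h5 h4
      omega
    have h4 : 0 < E1.card := by omega
    obtain ⟨l, hl, h⟩ := pick (L := L) (E := E1) (A := A) hA2.le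
      (fun x hx => (Finset.mem_filter.1 hx).2) h4
    have hl' := hA1 hl
    rw [hT', Finset.mem_filter] at hl'
    refine ⟨l, hl'.1, hl'.2, h3.trans ?_⟩
    have h5 : (E1.filter (fun x => x l.1 ≠ l.2)).card ≤ (E.filter (fun x => x l.1 ≠ l.2)).card :=
      Finset.card_le_card (Finset.filter_subset_filter _ (Finset.filter_subset _ _))
    have h6 := Nat.mul_le_mul_left L h5
    calc 2 * E1.card ≤ 2 * (L * (E1.filter (fun x => x l.1 ≠ l.2)).card) :=
          Nat.mul_le_mul_left _ h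
      _ ≤ 2 * (L * (E.filter (fun x => x l.1 ≠ l.2)).card) := Nat.mul_le_mul_left _ h6
      _ = _ := by ring

open Classical in
theorem kill {i : Fin n} {L : ℕ} (hL : 1 ≤ L) (N : Finset (Tm n)) : ∀ (E : Finset (Fin n → Bool)),
    (∀ T ∈ N, Con T) → (∀ x ∈ E, ∀ T ∈ N, ∃ l ∈ T, l.1 ≠ i ∧ x l.1 ≠ l.2) →
    (2 * L) ^ N.card * (2 * 2 ^ n) ≤ 2 ^ L * E.card →
    ∃ ρ : Tm n, ρ.card ≤ N.card ∧ (∀ l ∈ ρ, l.1 ≠ i) ∧ (∀ T ∈ N, ∃ l ∈ T, (l.1, !l.2) ∈ ρ) ∧
      E.card ≤ (2 * L) ^ N.card * (E.filter (fun x => Sat ρ x)).card := by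
  induction N using Finset.induction_on with
  | empty =>
    intro E _ _ _
    refine ⟨∅, by simp, by simp, by simp, ?_⟩
    have : E.filter (fun x => Sat (∅ : Tm n) x) = E := by
      refine Finset.filter_true_of_mem fun x _ l hl => ?_
      simp at hl
    rw [this]
    simp
  | insert T N hTN ih =>
    intro E h1 h2 h3
    rw [Finset.card_insert_of_notMem hTN] at h3 ⊢
    have hL2 : 0 < 2 * L := by omega
    have h4 : 2 * 2 ^ n ≤ 2 ^ L * E.card := by
      refine le_trans ?_ h3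
      exact Nat.le_mul_of_pos_left _ (Nat.pow_pos hL2)
    obtain ⟨l, hl1, hl2, hl3⟩ := pick2 (h1 T (Finset.mem_insert_self _ _)) hL
      (fun x hx => h2 x hx T (Finset.mem_insert_self _ _)) h4
    set E' := E.filter (fun x => x l.1 ≠ l.2) with hE'
    have h5 : (2 * L) ^ N.card * (2 * 2 ^ n) ≤ 2 ^ L * E'.card := by
      refine Nat.le_of_mul_le_mul_left ?_ hL2
      calc 2 * L * ((2 * L) ^ N.card * (2 * 2 ^ n)) = (2 * L) ^ (N.card + 1) * (2 * 2 ^ n) := by
            ring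
        _ ≤ 2 ^ L * E.card := h3
        _ ≤ 2 ^ L * (2 * L * E'.card) := Nat.mul_le_mul_left _ hl3
        _ = 2 * L * (2 ^ L * E'.card) := by ring
    obtain ⟨ρ, g1, g2, g3, g4⟩ := ih E' (fun T' hT' => h1 T' (Finset.mem_insert_of_mem hT'))
      (fun x hx T' hT' => h2 x (Finset.mem_filter.1 hx).1 T' (Finset.mem_insert_of_mem hT')) h5
    refine ⟨insert (l.1, !l.2) ρ, (Finset.card_insert_le _ _).trans (by omega), ?_, ?_, ?_⟩
    · intro l' hl'
      rcases Finset.mem_insert.1 hl' with h | h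
      · rw [h]
        exact hl2
      · exact g2 l' h
    · intro T' hT'
      rcases Finset.mem_insert.1 hT' with h | h
      · rw [h]
        exact ⟨l, hl1, Finset.mem_insert_self _ _⟩
      · obtain ⟨l', h6, h7⟩ := g3 T' h
        exact ⟨l', h6, Finset.mem_insert_of_mem h7⟩
    · have h6 : E'.filter (fun x => Sat ρ x) ⊆
          E.filter (fun x => Sat (insert (l.1, !l.2) ρ) x) := by
        intro x hx
        rw [Finset.mem_filter, hE', Finset.mem_filter] at hx
        rw [Finset.mem_filter]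
        refine ⟨hx.1.1, ?_⟩
        intro l' hl'
        rcases Finset.mem_insert.1 hl' with h | h
        · rw [h]
          have h7 := hx.1.2
          simp only
          cases h8 : x l.1 <;> cases h9 : l.2 <;> simp_all
        · exact hx.2 l' h
      have h7 := Finset.card_le_card h6
      calc E.card ≤ 2 * L * E'.card := hl3
        _ ≤ 2 * L * ((2 * L) ^ N.card * (E'.filter (fun x => Sat ρ x)).card) :=
            Nat.mul_le_mul_left _ g4
        _ ≤ 2 * L * ((2 * L) ^ N.card * (E.filter (fun x => Sat (insert (l.1, !l.2) ρ) x)).card) :=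
            Nat.mul_le_mul_left _ (Nat.mul_le_mul_left _ h7)
        _ = _ := by ring

end Pool.Agent.Helper92.MO
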