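import Pool.Agent.Helper92.MO.Det

set_option autoImplicit false

/-!
# Detection of the influential coordinates by small sets: the coefficients
-/

namespace Pool.Agent.Helper92.MO

open Finset
open Pool.Agent.H637R3.UC
open Pool.Agent.Helper92.AM
open Pool.Agent.Helper92.RK (Tm Sat vr Con)

variable {n : ℕ}

theorem chi_insert {S : Finset (Fin n)} {a : Fin n} (h : a ∉ S) (x : Fin n → Bool) :
    chi (insert a S) x = (if x a then -1 else 1) * chi S x := by
  unfold chi
  rw [Finset.prod_insert h]

open Classical in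
theorem expand (g : (Fin n → Bool) → ℝ) (ρ : Tm n) : ∀ S : Finset (Fin n), Con ρ →
    Disjoint S (vr ρ) → ∃ S' : Finset (Fin n), S ⊆ S' ∧ S' ⊆ S ∪ vr ρ ∧
      |∑ x, if Sat ρ x then g x * chi S x else 0| ≤ |∑ x, g x * chi S' x| := by
  induction ρ using Finset.induction_on with
  | empty =>
    intro S _ _
    refine ⟨S, Finset.Subset.refl _, Finset.subset_union_left, le_of_eq ?_⟩
    congr 1
    refine Finset.sum_congr rfl fun x _ => ?_
    rw [if_pos]
    intro l hl
    simp at hl
  | insert l ρ hl ih =>
    intro S hC hS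
    have hv : vr (insert l ρ) = insert l.1 (vr ρ) := by
      unfold vr
      rw [Finset.image_insert]
    rw [hv, Finset.disjoint_insert_right] at hS
    have hC' : Con ρ := Con.sub hC (Finset.subset_insert _ _)
    have hlv : l.1 ∉ vr ρ := by
      intro h
      unfold vr at h
      obtain ⟨l', h1, h2⟩ := Finset.mem_image.1 h
      have := hC l' (Finset.mem_insert_of_mem h1) l (Finset.mem_insert_self _ _) h2
      exact hl (this ▸ h1)
    have hd2 : Disjoint (insert l.1 S) (vr ρ) := by
      rw [Finset.disjoint_insert_left]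
      exact ⟨hlv, hS.2⟩
    obtain ⟨S1, a1, a2, a3⟩ := ih S hC' hS.2
    obtain ⟨S2, b1, b2, b3⟩ := ih (insert l.1 S) hC' hd2
    have key : (∑ x, if Sat (insert l ρ) x then g x * chi S x else 0) =
        1 / 2 * ((∑ x, if Sat ρ x then g x * chi S x else 0) +
          (if l.2 then -1 else 1) * ∑ x, if Sat ρ x then g x * chi (insert l.1 S) x else 0) := by
      rw [Finset.mul_sum, ← Finset.sum_add_distrib, Finset.mul_sum]
      refine Finset.sum_congr rfl fun x _ => ?_
      have h1 : Sat (insert l ρ) x ↔ (x l.1 = l.2 ∧ Sat ρ x) := by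
        unfold Sat
        constructor
        · intro h
          exact ⟨h l (Finset.mem_insert_self _ _), fun l' hl' => h l' (Finset.mem_insert_of_mem hl')⟩
        · rintro ⟨h2, h3⟩ l' hl'
          rcases Finset.mem_insert.1 hl' with h | h
          · rw [h]
            exact h2
          · exact h3 l' h
      rw [chi_insert hS.1]
      by_cases h2 : Sat ρ x
      · by_cases h3 : x l.1 = l.2
        · rw [if_pos (h1.2 ⟨h3, h2⟩), if_pos h2, if_pos h2, h3]
          cases l.2 <;> simp <;> ring
        · rw [if_neg (fun h => h3 (h1.1 h).1), if_pos h2, if_pos h2]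
          cases h4 : x l.1 <;> cases h5 : l.2 <;> simp_all
      · rw [if_neg (fun h => h2 (h1.1 h).2), if_neg h2, if_neg h2]
        simp
    have hs : |(if l.2 then (-1 : ℝ) else 1)| = 1 := by split_ifs <;> simp
    have hbound : |∑ x, if Sat (insert l ρ) x then g x * chi S x else 0| ≤
        1 / 2 * (|∑ x, g x * chi S1 x| + |∑ x, g x * chi S2 x|) := by
      rw [key, abs_mul, abs_of_pos (by norm_num : (0 : ℝ) < 1 / 2)]
      refine mul_le_mul_of_nonneg_left ?_ (by norm_num)
      refine (abs_add_le _ _).trans (add_le_add a3 ?_)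
      rw [abs_mul, hs, one_mul]
      exact b3
    have sub1 : S1 ⊆ S ∪ vr (insert l ρ) := by
      rw [hv]
      intro a ha
      rcases Finset.mem_union.1 (a2 ha) with h | h
      · exact Finset.mem_union_left _ h
      · exact Finset.mem_union_right _ (Finset.mem_insert_of_mem h)
    have sub2 : S2 ⊆ S ∪ vr (insert l ρ) := by
      rw [hv]
      intro a ha
      rcases Finset.mem_union.1 (b2 ha) with h | h
      · rcases Finset.mem_insert.1 h with h | h
        · rw [h]
          exact Finset.mem_union_right _ (Finset.mem_insert_self _ _)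
        · exact Finset.mem_union_left _ h
      · exact Finset.mem_union_right _ (Finset.mem_insert_of_mem h)
    rcases le_total (|∑ x, g x * chi S1 x|) (|∑ x, g x * chi S2 x|) with h | h
    · refine ⟨S2, (Finset.subset_insert _ _).trans b1, sub2, hbound.trans ?_⟩
      linarith
    · refine ⟨S1, a1, sub1, hbound.trans ?_⟩
      linarith

theorem flip_ne (x : Fin n → Bool) {i j : Fin n} (h : j ≠ i) : flip x i j = x j := by
  unfold AM.flip
  rw [Function.update_apply, if_neg h]

/-- Sum of the character of `i` over an event which does not depend on `i`. -/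
theorem charsum (f : (Fin n → Bool) → Bool) (i : Fin n) (σ : Bool) (W : (Fin n → Bool) → Prop)
    [DecidablePred W] (hW : ∀ x, W x ↔ W (flip x i)) :
    (∑ x, if W x then pm (f x) * chi {i} x else 0) = 2 * (if σ then -1 else 1) *
      (((univ.filter fun x : Fin n → Bool => x i = σ ∧ f x = true ∧ f (flip x i) = false ∧ W x).card : ℝ) -
        (univ.filter fun x : Fin n → Bool => x i ≠ σ ∧ f x = true ∧ f (flip x i) = false ∧ W x).card) := by
  set g : (Fin n → Bool) → ℝ := fun x => if W x then pm (f x) * chi {i} x else 0 with hg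
  set a : (Fin n → Bool) → ℝ := fun x =>
    if x i = σ ∧ f x = true ∧ f (flip x i) = false ∧ W x then 1 else 0 with ha
  set b : (Fin n → Bool) → ℝ := fun x =>
    if x i ≠ σ ∧ f x = true ∧ f (flip x i) = false ∧ W x then 1 else 0 with hb
  have h1 : ((univ.filter fun x : Fin n → Bool => x i = σ ∧ f x = true ∧ f (flip x i) = false ∧
      W x).card : ℝ) = ∑ x, a x := by
    rw [ha, Finset.sum_boole]
  have h2 : ((univ.filter fun x : Fin n → Bool => x i ≠ σ ∧ f x = true ∧ f (flip x i) = false ∧
      W x).card : ℝ) = ∑ x, b x := by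
    rw [hb, Finset.sum_boole]
  rw [h1, h2]
  have h3 : ∀ x, g x + g (flip x i) = (2 * (if σ then -1 else 1)) * (a x - b x) +
      (2 * (if σ then -1 else 1)) * (a (flip x i) - b (flip x i)) := by
    intro x
    have hw := hW x
    have hc : ∀ y : Fin n → Bool, chi {i} y = if y i then -1 else 1 := by
      intro y
      simp [chi]
    simp only [hg, ha, hb, hc, AM.flip_flip, AM.flip_self]
    by_cases h : W x
    · have h' := hw.1 h
      simp only [h, h', if_true, and_true]
      cases f x <;> cases f (flip x i) <;> cases x i <;> cases σ <;> norm_num [pm]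
    · have h' : ¬ W (flip x i) := fun h2 => h (hw.2 h2)
      simp only [h, h', if_false, and_false]
      norm_num
  have h4 : ∑ x, g x + ∑ x, g x = (2 * (if σ then -1 else 1)) * (∑ x, a x - ∑ x, b x) +
      (2 * (if σ then -1 else 1)) * (∑ x, a x - ∑ x, b x) := by
    have e1 : ∑ x, g x + ∑ x, g x = ∑ x, (g x + g (flip x i)) := by
      rw [Finset.sum_add_distrib, sum_flip g i]
    rw [e1]
    simp_rw [h3]
    rw [Finset.sum_add_distrib, ← Finset.mul_sum, ← Finset.mul_sum, Finset.sum_sub_distrib,
      Finset.sum_sub_distrib, sum_flip a i, sum_flip b i]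
  linarith

theorem infl_card (f : (Fin n → Bool) → Bool) (i : Fin n) (σ : Bool) :
    infl (sf f) i * 2 ^ n =
      2 * (((univ.filter fun x : Fin n → Bool => x i = σ ∧ f x = true ∧ f (flip x i) = false).card : ℝ) +
        (univ.filter fun x : Fin n → Bool => x i ≠ σ ∧ f x = true ∧ f (flip x i) = false).card) := by
  rw [infl_sf, div_mul_cancel₀ _ (by positivity)]
  set a : (Fin n → Bool) → ℝ := fun x =>
    if x i = σ ∧ f x = true ∧ f (flip x i) = false then 1 else 0 with ha
  set b : (Fin n → Bool) → ℝ := fun x =>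
    if x i ≠ σ ∧ f x = true ∧ f (flip x i) = false then 1 else 0 with hb
  have h1 : ((univ.filter fun x : Fin n → Bool => x i = σ ∧ f x = true ∧
      f (flip x i) = false).card : ℝ) = ∑ x, a x := by
    rw [ha, Finset.sum_boole]
  have h2 : ((univ.filter fun x : Fin n → Bool => x i ≠ σ ∧ f x = true ∧
      f (flip x i) = false).card : ℝ) = ∑ x, b x := by
    rw [hb, Finset.sum_boole]
  rw [h1, h2]
  have h3 : ∀ x : Fin n → Bool, (if f x ≠ f (flip x i) then (1 : ℝ) else 0) =
      (a x + a (flip x i)) + (b x + b (flip x i)) := by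
    intro x
    simp only [ha, hb, AM.flip_flip, AM.flip_self]
    cases f x <;> cases f (flip x i) <;> cases x i <;> cases σ <;> norm_num
  simp_rw [h3]
  rw [Finset.sum_add_distrib, Finset.sum_add_distrib, Finset.sum_add_distrib, sum_flip a i,
    sum_flip b i]
  ring

open Classical in
/-- If all the coefficients of the small sets which contain `i` are small then the influence of `i`
is small. -/
theorem det {k L : ℕ} (hL : 1 ≤ L) (F : Finset (Tm n)) (hF : ∀ T ∈ F, Con T)
    (f : (Fin n → Bool) → Bool) (hf : ∀ x, f x = true ↔ ∃ T ∈ F, Sat T x) (i : Fin n) (σ : Bool)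
    (hk : (F.filter fun T => (i, !σ) ∈ T).card ≤ k) {β : ℝ}
    (hβ : ∀ S : Finset (Fin n), i ∈ S → S.card ≤ k + 1 → |cf (sf f) S| ≤ β) :
    infl (sf f) i ≤ (2 * L : ℝ) ^ k * (2 * β + 8 * (1 / 2) ^ L) + β := by
  set N := F.filter fun T => (i, !σ) ∈ T with hN
  set Ap := univ.filter fun x : Fin n → Bool => x i = σ ∧ f x = true ∧ f (flip x i) = false
    with hAp
  set Am := univ.filter fun x : Fin n → Bool => x i ≠ σ ∧ f x = true ∧ f (flip x i) = false
    with hAm
  have h2n : (0 : ℝ) < 2 ^ n := by positivity
  have hβ0 : 0 ≤ β := (abs_nonneg _).trans (hβ {i} (Finset.mem_singleton_self _) (by simp))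
  -- the coefficient of `{i}`
  have e1 : |2 * ((Ap.card : ℝ) - Am.card)| ≤ β * 2 ^ n := by
    have h1 := hβ {i} (Finset.mem_singleton_self _) (by simp)
    rw [cf_sf' f {i}, abs_div, abs_of_pos h2n, div_le_iff₀ h2n] at h1
    have h2 := charsum f i σ (fun _ => True) (fun _ => Iff.rfl)
    simp only [if_true, and_true] at h2
    rw [h2, abs_mul, abs_mul] at h1
    have h3 : |(if σ then (-1 : ℝ) else 1)| = 1 := by split_ifs <;> simp
    rw [h3, mul_one] at h1
    rw [abs_mul]
    exact h1
  -- the other sets
  have e2 : (Ap.card : ℝ) ≤ (2 * L : ℝ) ^ k * (β / 2 + 2 * (1 / 2) ^ L) * 2 ^ n := by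
    have hL1 : (1 : ℝ) ≤ 2 * L := by
      have : (1 : ℝ) ≤ L := by exact_mod_cast hL
      linarith
    have hLk : (2 * L : ℝ) ^ N.card ≤ (2 * L : ℝ) ^ k := pow_le_pow_right₀ hL1 hk
    by_cases hbig : (2 * L) ^ N.card * (2 * 2 ^ n) ≤ 2 ^ L * Ap.card
    · have hdead : ∀ x ∈ Ap, ∀ T ∈ N, ∃ l ∈ T, l.1 ≠ i ∧ x l.1 ≠ l.2 := by
        intro x hx T hT
        rw [hAp, Finset.mem_filter] at hx
        rw [hN, Finset.mem_filter] at hT
        have h1 : ¬ Sat T (flip x i) := by
          intro h
          have := (hf _).2 ⟨T, hT.1, h⟩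
          rw [hx.2.2.2] at this
          simp at this
        unfold Sat at h1
        push Not at h1
        obtain ⟨l, hl1, hl2⟩ := h1
        have hli : l.1 ≠ i := by
          intro h
          have h3 := hF T hT.1 l hl1 (i, !σ) hT.2 h
          rw [h3] at hl2
          simp only [flip_self, hx.2.1] at hl2
          exact hl2 rfl
        refine ⟨l, hl1, hli, ?_⟩
        rw [flip_ne x hli] at hl2
        exact hl2
      obtain ⟨ρ, r1, r2, r3, r4⟩ := kill hL N Ap (fun T hT => hF T (Finset.mem_filter.1 hT).1)
        hdead hbig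
      have hApos : 0 < Ap.card := by
        rcases Nat.eq_zero_or_pos Ap.card with h | h
        · rw [h, mul_zero] at hbig
          have h1 : 0 < (2 * L) ^ N.card * (2 * 2 ^ n) := by positivity
          omega
        · exact h
      have hCon : Con ρ := by
        have h1 : 0 < (Ap.filter (fun x => Sat ρ x)).card := by
          rcases Nat.eq_zero_or_pos (Ap.filter (fun x => Sat ρ x)).card with h | h
          · rw [h, mul_zero] at r4
            omega
          · exact h
        obtain ⟨x, hx⟩ := Finset.card_pos.1 h1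
        have hx2 := (Finset.mem_filter.1 hx).2
        intro l hl l' hl' e
        have a1 := hx2 l hl
        have a2 := hx2 l' hl'
        rw [e] at a1
        exact Prod.ext e (a1.symm.trans a2)
      have hiv : Disjoint ({i} : Finset (Fin n)) (vr ρ) := by
        rw [Finset.disjoint_singleton_left]
        intro h
        unfold vr at h
        obtain ⟨l, hl, e⟩ := Finset.mem_image.1 h
        exact r2 l hl e
      have hW : ∀ x, Sat ρ x ↔ Sat ρ (flip x i) := by
        intro x
        unfold Sat
        refine forall_congr' fun l => forall_congr' fun hl => ?_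
        rw [flip_ne x (r2 l hl)]
      obtain ⟨S', s1, s2, s3⟩ := expand (fun x => pm (f x)) ρ {i} hCon hiv
      have h1 := charsum f i σ (fun x => Sat ρ x) hW
      have h2 : (univ.filter fun x : Fin n → Bool => x i ≠ σ ∧ f x = true ∧
          f (flip x i) = false ∧ Sat ρ x) = ∅ := by
        rw [Finset.filter_eq_empty_iff]
        rintro x _ ⟨c1, c2, c3, c4⟩
        obtain ⟨T, hT1, hT2⟩ := (hf x).1 c2
        have h3 : ¬ Sat T (flip x i) := by
          intro h
          have := (hf _).2 ⟨T, hT1, h⟩
          rw [c3] at this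
          simp at this
        unfold Sat at h3
        push Not at h3
        obtain ⟨l, hl1, hl2⟩ := h3
        have hli : l.1 = i := by
          by_contra h
          rw [flip_ne x h] at hl2
          exact hl2 (hT2 l hl1)
        have hl3 : l = (i, !σ) := by
          refine Prod.ext hli ?_
          have h4 := hT2 l hl1
          rw [hli] at h4
          rw [← h4]
          revert c1
          cases x i <;> cases σ <;> simp
        obtain ⟨l', g1, g2⟩ := r3 T (Finset.mem_filter.2 ⟨hT1, hl3 ▸ hl1⟩)
        have h5 := hT2 l' g1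
        have h6 := c4 _ g2
        simp only at h6
        rw [h5] at h6
        exact absurd h6 (by cases l'.2 <;> simp)
      rw [h2, Finset.card_empty, Nat.cast_zero, sub_zero] at h1
      have h3 : (univ.filter fun x : Fin n → Bool => x i = σ ∧ f x = true ∧
          f (flip x i) = false ∧ Sat ρ x) = Ap.filter (fun x => Sat ρ x) := by
        ext x
        simp only [hAp, Finset.mem_filter, Finset.mem_univ, true_and]
        tauto
      rw [h3] at h1
      have h4 : S'.card ≤ k + 1 := by
        have a1 := Finset.card_le_card s2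
        have a2 := Finset.card_union_le {i} (vr ρ)
        have a3 : (vr ρ).card ≤ ρ.card := Finset.card_image_le
        rw [Finset.card_singleton] at a2
        omega
      have h5 := hβ S' (s1 (Finset.mem_singleton_self _)) h4
      rw [cf_sf' f S', abs_div, abs_of_pos h2n, div_le_iff₀ h2n] at h5
      have h6 := s3.trans h5
      rw [h1, abs_mul, abs_mul] at h6
      have h7 : |(if σ then (-1 : ℝ) else 1)| = 1 := by split_ifs <;> simp
      rw [h7, mul_one, abs_of_pos (by norm_num : (0 : ℝ) < 2),
        abs_of_nonneg (Nat.cast_nonneg _)] at h6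
      have h8 : (Ap.card : ℝ) ≤ (2 * L : ℝ) ^ N.card * (Ap.filter (fun x => Sat ρ x)).card := by
        exact_mod_cast r4
      calc (Ap.card : ℝ) ≤ (2 * L : ℝ) ^ N.card * (Ap.filter (fun x => Sat ρ x)).card := h8
        _ ≤ (2 * L : ℝ) ^ k * (β / 2 * 2 ^ n) := by
            refine mul_le_mul hLk ?_ (Nat.cast_nonneg _) (by positivity)
            linarith
        _ ≤ (2 * L : ℝ) ^ k * (β / 2 + 2 * (1 / 2) ^ L) * 2 ^ n := by
            rw [mul_assoc]
            refine mul_le_mul_of_nonneg_left ?_ (by positivity)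
            refine mul_le_mul_of_nonneg_right ?_ h2n.le
            have : (0 : ℝ) ≤ 2 * (1 / 2) ^ L := by positivity
            linarith
    · push Not at hbig
      have h1 : (2 : ℝ) ^ L * Ap.card < (2 * L : ℝ) ^ N.card * (2 * 2 ^ n) := by
        exact_mod_cast hbig
      have h2 : (Ap.card : ℝ) ≤ (2 * L : ℝ) ^ N.card * (2 * 2 ^ n) * (1 / 2) ^ L := by
        have h3 : (Ap.card : ℝ) = (2 : ℝ) ^ L * Ap.card * (1 / 2) ^ L := by
          rw [mul_assoc, mul_comm (Ap.card : ℝ), ← mul_assoc, ← mul_pow]
          norm_num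
        rw [h3]
        exact mul_le_mul_of_nonneg_right h1.le (by positivity)
      calc (Ap.card : ℝ) ≤ (2 * L : ℝ) ^ N.card * (2 * 2 ^ n) * (1 / 2) ^ L := h2
        _ = (2 * L : ℝ) ^ N.card * (2 * (1 / 2) ^ L * 2 ^ n) := by ring
        _ ≤ (2 * L : ℝ) ^ k * ((β / 2 + 2 * (1 / 2) ^ L) * 2 ^ n) := by
            refine mul_le_mul hLk ?_ (by positivity) (by positivity)
            refine mul_le_mul_of_nonneg_right ?_ h2n.le
            linarith
        _ = _ := by ring
  have e3 := infl_card f i σ
  rw [← hAp, ← hAm] at e3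
  have e4 : (Am.card : ℝ) ≤ Ap.card + β / 2 * 2 ^ n := by
    have := (abs_le.1 e1).1
    linarith
  have e5 : infl (sf f) i * 2 ^ n ≤
      ((2 * L : ℝ) ^ k * (2 * β + 8 * (1 / 2) ^ L) + β) * 2 ^ n := by
    rw [e3]
    calc 2 * ((Ap.card : ℝ) + Am.card) ≤ 4 * Ap.card + β * 2 ^ n := by linarith
      _ ≤ 4 * ((2 * L : ℝ) ^ k * (β / 2 + 2 * (1 / 2) ^ L) * 2 ^ n) + β * 2 ^ n := by linarith
      _ = _ := by ring
  exact le_of_mul_le_mul_right e5 h2n

end Pool.Agent.Helper92.MO
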