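import Pool.Agent.Helper92.AM.Final

set_option autoImplicit false

/-!
# The learner for every class of functions for which quiet sets are good
-/

namespace Pool.Agent.Helper92.MO

open Finset
open Pool.Agent.NPC
open Pool.Agent.H637R3.UC
open Pool.Agent.Helper92.AM

theorem learn_main' {n c e q d t m : ℕ} (he : 1 ≤ e) (hq : 1 ≤ q) (hd : 1 ≤ d)
    (ht : ((n + 2) * q * d) ^ cc c e ≤ t) (hm : t ^ cc c e ≤ m)
    (f : (Fin n → Bool) → Bool)
    (hres : d0 c e ≤ dg t → 8 * e * tinf (sf f) ≤ dg t + 1 → ∀ R : Finset (Fin n),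
      Quiet f (dg t) (kk c e) (2 / (qq c e t : ℕ)) R →
      ∑ S ∈ univ.filter (fun S : Finset (Fin n) => ¬ (S ⊆ R ∧ S.card ≤ dg t)),
        cf (sf f) S ^ 2 ≤ 1 / (2 * e))
    (hI : tinf (sf f) ^ 2 ≤ Real.logb 2 q) :
    (univ.filter fun x : Fin m → Fin n → Bool => 2 ^ n < e * (univ.filter fun y : Fin n → Bool =>
      hval (learn c e t (sample f x)) (List.ofFn y) ≠ f y).card).card * d ≤ 2 ^ (n * m) := by
  classical
  set C := cc c e with hC
  have hC1 : 64 * e ^ 2 ≤ C := by rw [hC, cc]; omega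
  have hC2 : (d0 c e + 1) ^ 2 ≤ C := by rw [hC, cc]; omega
  have hC3 : 4 * ka c e + 40 ≤ C := by rw [hC, cc]; omega
  have hbase : n + 2 ≤ (n + 2) * q * d := by
    calc n + 2 = (n + 2) * 1 * 1 := by ring
      _ ≤ (n + 2) * q * d := Nat.mul_le_mul (Nat.mul_le_mul_left _ hq) hd
  have hbase2 : d ≤ (n + 2) * q * d := by
    calc d = 1 * 1 * d := by ring
      _ ≤ (n + 2) * q * d := Nat.mul_le_mul_right _ (Nat.mul_le_mul (by omega) hq)
  have hbase3 : q ≤ (n + 2) * q * d := by
    calc q = 1 * q * 1 := by ring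
      _ ≤ (n + 2) * q * d := Nat.mul_le_mul (Nat.mul_le_mul_right _ (by omega)) hd
  have hb1 : 1 ≤ (n + 2) * q * d := le_trans (by omega) hbase
  have hpow : (n + 2) * q * d ≤ t :=
    (Nat.le_self_pow (by omega) _).trans ht
  have h2t : 2 ≤ t := le_trans (by omega) (hbase.trans hpow)
  have ht1 : 1 ≤ t := by omega
  have h2C : 2 ^ C ≤ t := (Nat.pow_le_pow_left (by omega) C).trans ht
  have hsz : C < Nat.size t := Nat.lt_size.2 h2C
  have hdg : C < (dg t + 1) ^ 2 := hsz.trans (lt_dg_sq t)
  have hD : d0 c e ≤ dg t := by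
    have h1 : (d0 c e + 1) ^ 2 < (dg t + 1) ^ 2 := lt_of_le_of_lt hC2 hdg
    have := lt_of_pow_lt_pow_left₀ 2 (by omega) h1
    omega
  have hmt : t ≤ m := (Nat.le_self_pow (by omega) _).trans hm
  have hm0 : 0 < m := by omega
  have he' : (1 : ℝ) ≤ e := by exact_mod_cast he
  -- total influence
  have hI' : 8 * e * tinf (sf f) ≤ dg t + 1 := by
    have h1 : (C : ℝ) * Real.logb 2 q ≤ (dg t + 1) ^ 2 := by
      have h2 : q ^ C ≤ t := (Nat.pow_le_pow_left hbase3 C).trans ht
      have h3 : ((q ^ C : ℕ) : ℝ) ≤ 2 ^ (Nat.size t) := by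
        exact_mod_cast h2.trans (Nat.lt_size_self t).le
      have h4 := Real.logb_le_logb_of_le (b := 2) (by norm_num)
        (by exact_mod_cast Nat.pow_pos hq) h3
      push_cast at h4
      rw [Real.logb_pow, Real.logb_pow, Real.logb_self_eq_one (by norm_num), mul_one] at h4
      have h5 : (Nat.size t : ℝ) ≤ ((dg t + 1 : ℕ) : ℝ) ^ 2 := by
        exact_mod_cast (lt_dg_sq t).le
      push_cast at h5
      linarith
    have h2 : 0 ≤ Real.logb 2 q := Real.logb_nonneg (by norm_num) (by exact_mod_cast hq)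
    have h3 : (64 * (e : ℝ) ^ 2) ≤ C := by exact_mod_cast hC1
    have h4 : (8 * e * tinf (sf f)) ^ 2 ≤ ((dg t : ℝ) + 1) ^ 2 := by
      calc (8 * e * tinf (sf f)) ^ 2 = 64 * (e : ℝ) ^ 2 * tinf (sf f) ^ 2 := by ring
        _ ≤ 64 * (e : ℝ) ^ 2 * Real.logb 2 q := mul_le_mul_of_nonneg_left hI (by positivity)
        _ ≤ C * Real.logb 2 q := mul_le_mul_of_nonneg_right h3 h2
        _ ≤ _ := h1
    exact abs_le_of_sq_le_sq' h4 (by positivity) |>.2
  set D := dg t with hDd
  set k := kk c e with hk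
  set Q := qq c e t with hQ
  set W := ww c e t with hW
  have hQpos : 0 < Q := by
    rw [hQ]
    exact Nat.pow_pos (by norm_num)
  have hWpos : 0 < W := by
    rw [hW, ww]
    exact Nat.pow_pos (by omega)
  have hQ' : (1 : ℝ) ≤ Q := by exact_mod_cast hQpos
  have hW' : (1 : ℝ) ≤ W := by exact_mod_cast hWpos
  set η : ℝ := 1 / (6 * W * Q) with hη
  have hη0 : 0 < η := by positivity
  have hη1 : η ≤ 1 := by
    rw [hη, div_le_one (by positivity)]
    nlinarith
  have hηW : W * (3 * η) * (2 * Q) ≤ 1 := by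
    rw [hη]
    apply le_of_eq
    field_simp
    norm_num
  have hkD : k ≤ D := by
    have : k ≤ d0 c e := by
      unfold d0
      omega
    omega
  have hWn : (n + 1) ^ k ≤ W := by
    have h1 : k ≤ ka c e + 1 := by
      unfold ka
      omega
    calc (n + 1) ^ k ≤ (2 * t) ^ k := Nat.pow_le_pow_left (by omega) k
      _ ≤ (2 * t) ^ (ka c e + 1) := Nat.pow_le_pow_right (by omega) h1
  have hQ16 : 16 * e ≤ Q := by
    refine le_trans ?_ (q_big he hD)
    exact Nat.le_mul_of_pos_right _ (Nat.pow_pos (by positivity))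
  -- a good sample
  have hgood : ∀ x : Fin m → Fin n → Bool, Good f x (D + k) η →
      ¬ (2 ^ n < e * (univ.filter fun y : Fin n → Bool =>
        hval (learn c e t (sample f x)) (List.ofFn y) ≠ f y).card) := by
    intro x hx
    have hhead : ((sample f x).headD ([], false)).1.length = n := by
      obtain ⟨m', rfl⟩ : ∃ m', m = m' + 1 := ⟨m - 1, by omega⟩
      simp [sample, List.ofFn_succ]
    obtain ⟨r1, r2, r3⟩ := run_final (t := t) hm0 hQpos hx hη1 hη0.le hηW hWn (cap_run hD ht1)
      (rounds hD ht1)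
    have hx' : Good f x D η := fun S hS => hx S (by omega)
    have h1 := err_le hm0 r1 r2 hx'
    have h2 := hres hD hI' _ r3
    have h3 : learn c e t (sample f x) = out W D (sample f x) (run W D k Q n (sample f x) t) := by
      unfold learn
      rw [hhead]
    rw [← h3] at h1
    have h4 : W * η ^ 2 ≤ 1 / (8 * e) := by
      have h5 : W * η ^ 2 = 1 / (36 * W * Q ^ 2) := by
        rw [hη]
        field_simp
        norm_num
      rw [h5]
      refine one_div_le_one_div_of_le (by positivity) ?_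
      have h6 : (16 * e : ℝ) ≤ Q := by exact_mod_cast hQ16
      have h7 : (Q : ℝ) ≤ W * Q ^ 2 := by nlinarith [mul_le_mul hW' (mul_le_mul hQ' le_rfl (by positivity) (by positivity) : (1 : ℝ) * Q ≤ Q * Q) (by positivity) (by positivity)]
      nlinarith
    have h5 : ((e * (univ.filter fun y : Fin n → Bool =>
        hval (learn c e t (sample f x)) (List.ofFn y) ≠ f y).card : ℕ) : ℝ) ≤ 2 ^ n := by
      push_cast
      have h6 : (1 : ℝ) / (8 * e) + 1 / (2 * e) ≤ 1 / e := by
        have : (1 : ℝ) / (8 * e) + 1 / (2 * e) = 5 / 8 * (1 / e) := by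
          field_simp
          norm_num
        rw [this]
        have : (0 : ℝ) ≤ 1 / e := by positivity
        linarith
      calc (e : ℝ) * (univ.filter fun y : Fin n → Bool =>
          hval (learn c e t (sample f x)) (List.ofFn y) ≠ f y).card
          ≤ e * (2 ^ n * (W * η ^ 2 + ∑ S ∈ univ.filter (fun S : Finset (Fin n) =>
            ¬ (S ⊆ fs (run W D k Q n (sample f x) t) ∧ S.card ≤ D)), cf (sf f) S ^ 2)) :=
            mul_le_mul_of_nonneg_left h1 (by positivity)
        _ ≤ e * (2 ^ n * (1 / e)) := by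
            refine mul_le_mul_of_nonneg_left (mul_le_mul_of_nonneg_left ?_ (by positivity))
              (by positivity)
            linarith
        _ = 2 ^ n := by field_simp
    intro h6
    have h7 : ((2 ^ n : ℕ) : ℝ) < ((e * (univ.filter fun y : Fin n → Bool =>
        hval (learn c e t (sample f x)) (List.ofFn y) ≠ f y).card : ℕ) : ℝ) := by
      exact_mod_cast h6
    push_cast at h7 h5
    linarith
  have h1 := not_good hm0 f (D + k) η hη0.le hη1 (fun x : Fin m → Fin n → Bool =>
    2 ^ n < e * (univ.filter fun y : Fin n → Bool =>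
      hval (learn c e t (sample f x)) (List.ofFn y) ≠ f y).card)
    (fun x hx hg => hgood x hg hx)
  -- the sample is large
  have hsize : Nat.size t ≤ t := Nat.size_le.2 Nat.lt_two_pow_self
  have hDt : D ≤ t := by
    have := dg_sq_le t
    nlinarith
  set j : ℕ := (Nat.size t + 1) * (D + k + 1) with hj
  have hjm : 144 * (j : ℝ) * W ^ 2 * Q ^ 2 ≤ m := by
    have h2 : 144 * j * W ^ 2 * Q ^ 2 ≤ m := by
      have a1 : 144 ≤ (2 * t) ^ 8 := by
        calc 144 ≤ 2 ^ 8 := by norm_num
          _ ≤ (2 * t) ^ 8 := Nat.pow_le_pow_left (by omega) 8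
      have a2 : j ≤ (2 * t) ^ 3 := by
        have b1 : Nat.size t + 1 ≤ 2 * t := by omega
        have b2 : D + k + 1 ≤ (2 * t) * (2 * t) := by nlinarith
        calc j ≤ (2 * t) * ((2 * t) * (2 * t)) := Nat.mul_le_mul b1 b2
          _ = (2 * t) ^ 3 := by ring
      have a3 : Q ≤ 2 * t := by
        have := qq_le hD ht1
        omega
      calc 144 * j * W ^ 2 * Q ^ 2 ≤ (2 * t) ^ 8 * (2 * t) ^ 3 * W ^ 2 * (2 * t) ^ 2 :=
            Nat.mul_le_mul (Nat.mul_le_mul_right _ (Nat.mul_le_mul a1 a2))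
              (Nat.pow_le_pow_left a3 2)
        _ = (2 * t) ^ (2 * ka c e + 15) := by
            rw [hW, ww]
            ring
        _ ≤ (t ^ 2) ^ (2 * ka c e + 15) := Nat.pow_le_pow_left (by nlinarith) _
        _ = t ^ (4 * ka c e + 30) := by
            rw [← pow_mul]
            congr 1
            ring
        _ ≤ t ^ C := Nat.pow_le_pow_right ht1 (by omega)
        _ ≤ m := hm
    exact_mod_cast h2
  have hexp : 2 * (d : ℝ) * (n + 1) ^ (D + k) ≤ Real.exp (m * η ^ 2 / 4) := by
    have h2 : (j : ℝ) ≤ m * η ^ 2 / 4 := by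
      have h3 : m * η ^ 2 / 4 = m / (144 * W ^ 2 * Q ^ 2) := by
        rw [hη]
        field_simp
        norm_num
      rw [h3, le_div_iff₀ (by positivity)]
      linarith
    have h3 : (2 : ℝ) ^ j ≤ Real.exp (m * η ^ 2 / 4) := by
      calc (2 : ℝ) ^ j ≤ (Real.exp 1) ^ j := by
            refine pow_le_pow_left₀ (by norm_num) ?_ j
            have := Real.add_one_le_exp (1 : ℝ)
            linarith
        _ = Real.exp j := by
            rw [← Real.exp_nat_mul, mul_one]
        _ ≤ _ := Real.exp_le_exp.2 h2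
    refine le_trans ?_ h3
    have h4 : 2 * d * (n + 1) ^ (D + k) ≤ 2 ^ j := by
      have h5 : t ≤ 2 ^ (Nat.size t) := (Nat.lt_size_self t).le
      have h6 : 2 * d ≤ 2 ^ (Nat.size t + 1) := by
        rw [pow_succ]
        have : d ≤ t := hbase2.trans hpow
        omega
      have h7 : n + 1 ≤ 2 ^ (Nat.size t + 1) := by
        rw [pow_succ]
        have : n + 2 ≤ t := hbase.trans hpow
        omega
      calc 2 * d * (n + 1) ^ (D + k) ≤ 2 ^ (Nat.size t + 1) * (2 ^ (Nat.size t + 1)) ^ (D + k) :=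
            Nat.mul_le_mul h6 (Nat.pow_le_pow_left h7 _)
        _ = 2 ^ j := by
            rw [hj, ← pow_mul, ← pow_add]
            congr 1
            ring
    exact_mod_cast h4
  have hfin : ((univ.filter fun x : Fin m → Fin n → Bool => 2 ^ n < e *
      (univ.filter fun y : Fin n → Bool =>
        hval (learn c e t (sample f x)) (List.ofFn y) ≠ f y).card).card : ℝ) * d ≤
      (2 : ℝ) ^ (n * m) := by
    have hd' : (0 : ℝ) < d := by exact_mod_cast hd
    have hE := Real.exp_pos (m * η ^ 2 / 4)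
    calc _ ≤ ((n + 1) ^ (D + k) * (2 * ((2 : ℝ) ^ (n * m) *
        Real.exp (-(m * η ^ 2 / 4))))) * d := mul_le_mul_of_nonneg_right h1 hd'.le
      _ = (2 * (d : ℝ) * (n + 1) ^ (D + k)) * Real.exp (-(m * η ^ 2 / 4)) * 2 ^ (n * m) := by ring
      _ ≤ Real.exp (m * η ^ 2 / 4) * Real.exp (-(m * η ^ 2 / 4)) * 2 ^ (n * m) := by
          refine mul_le_mul_of_nonneg_right (mul_le_mul_of_nonneg_right hexp
            (Real.exp_pos _).le) (by positivity)
      _ = 2 ^ (n * m) := by
          rw [← Real.exp_add]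
          simp
  exact_mod_cast hfin



/-- The general theorem in terms of probabilities. -/
theorem learn_prob' {n c e q d t m : ℕ} (he : 1 ≤ e) (hq : 1 ≤ q) (hd : 1 ≤ d)
    (ht : ((n + 2) * q * d) ^ cc c e ≤ t) (hm : t ^ cc c e ≤ m)
    (f : (Fin n → Bool) → Bool)
    (hres : d0 c e ≤ dg t → 8 * e * tinf (sf f) ≤ dg t + 1 → ∀ R : Finset (Fin n),
      Quiet f (dg t) (kk c e) (2 / (qq c e t : ℕ)) R →
      ∑ S ∈ univ.filter (fun S : Finset (Fin n) => ¬ (S ⊆ R ∧ S.card ≤ dg t)),
        cf (sf f) S ^ 2 ≤ 1 / (2 * e))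
    (hI : tinf (sf f) ^ 2 ≤ Real.logb 2 q) :
    prob (fun x : Fin m → Fin n → Bool => 1 / (e : ℝ) < prob (fun y : Fin n → Bool =>
      evalBits (learnBits c e (List.replicate t (), sample f x), List.ofFn y) ≠ f y)) ≤
      1 / d := by
  classical
  have h1 := learn_main' he hq hd ht hm f hres hI
  rw [prob_eq]
  have h2 : ∀ x : Fin m → Fin n → Bool, (1 / (e : ℝ) < prob (fun y : Fin n → Bool =>
      evalBits (learnBits c e (List.replicate t (), sample f x), List.ofFn y) ≠ f y)) ↔
      2 ^ n < e * (univ.filter fun y : Fin n → Bool =>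
        hval (learn c e t (sample f x)) (List.ofFn y) ≠ f y).card := by
    intro x
    rw [prob_eq]
    simp only [learnBits, evalBits_bits, List.length_replicate]
    rw [Fintype.card_fun, Fintype.card_bool, Fintype.card_fin, div_lt_div_iff₀
      (by exact_mod_cast he) (by positivity), one_mul]
    rw [mul_comm]
    norm_cast
  have h3 : (univ.filter fun x : Fin m → Fin n → Bool => 1 / (e : ℝ) < prob (fun y : Fin n → Bool =>
      evalBits (learnBits c e (List.replicate t (), sample f x), List.ofFn y) ≠ f y)) =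
      univ.filter fun x : Fin m → Fin n → Bool => 2 ^ n < e * (univ.filter fun y : Fin n → Bool =>
      hval (learn c e t (sample f x)) (List.ofFn y) ≠ f y).card := by
    ext x
    simp only [Finset.mem_filter, Finset.mem_univ, true_and]
    exact h2 x
  rw [h3, Fintype.card_fun, Fintype.card_fun, Fintype.card_bool, Fintype.card_fin,
    Fintype.card_fin, div_le_div_iff₀ (by positivity) (by exact_mod_cast hd), one_mul]
  rw [← pow_mul]
  exact_mod_cast h1


end Pool.Agent.Helper92.MO
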