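import Pool.Agent.Helper92.MO.Det2

set_option autoImplicit false

/-!
# Quiet sets are good for formulas with few minority occurrences of every variable
-/

namespace Pool.Agent.Helper92.MO

open Finset
open Pool.Agent.H637R3.UC
open Pool.Agent.Helper92.AM
open Pool.Agent.Helper92.RK (Tm Sat vr Con)

variable {n : ℕ}

theorem numeric {k e D : ℕ} (he : 1 ≤ e) (hD : d0 k e ≤ D) :
    242 * (2 * (ka k e * D)) ^ (2 * k) * 2 ^ (16 * D) ≤ 2 ^ (ka k e * D) := by
  have hka : ka k e ≤ D := by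
    have : ka k e ≤ d0 k e := by
      unfold d0
      omega
    omega
  have hkab : 24 + 6 * k ≤ ka k e := by
    unfold ka kk
    have : k + 1 ≤ (k + 1) * e := Nat.le_mul_of_pos_right _ he
    nlinarith
  have hD1 : 1 ≤ D := by omega
  have h1 : 2 * (ka k e * D) ≤ 2 ^ (3 * D) := by
    have h2 : D ≤ 2 ^ D := (Nat.lt_two_pow_self (n := D)).le
    have h3 : 2 ≤ 2 ^ D := by
      calc 2 = 2 ^ 1 := by norm_num
        _ ≤ 2 ^ D := Nat.pow_le_pow_right (by norm_num) hD1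
    calc 2 * (ka k e * D) ≤ 2 ^ D * (2 ^ D * 2 ^ D) :=
          Nat.mul_le_mul h3 (Nat.mul_le_mul (hka.trans h2) h2)
      _ = 2 ^ (3 * D) := by ring
  have h4 : (2 * (ka k e * D)) ^ (2 * k) ≤ 2 ^ (6 * k * D) := by
    calc (2 * (ka k e * D)) ^ (2 * k) ≤ (2 ^ (3 * D)) ^ (2 * k) := Nat.pow_le_pow_left h1 _
      _ = 2 ^ (6 * k * D) := by
        rw [← pow_mul]
        congr 1
        ring
  have h5 : 242 ≤ 2 ^ (8 * D) := by
    calc 242 ≤ 2 ^ 8 := by norm_num
      _ ≤ 2 ^ (8 * D) := Nat.pow_le_pow_right (by norm_num) (by omega)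
  calc 242 * (2 * (ka k e * D)) ^ (2 * k) * 2 ^ (16 * D) ≤
      2 ^ (8 * D) * 2 ^ (6 * k * D) * 2 ^ (16 * D) :=
        Nat.mul_le_mul_right _ (Nat.mul_le_mul h5 h4)
    _ = 2 ^ ((24 + 6 * k) * D) := by
        rw [← pow_add, ← pow_add]
        congr 1
        ring
    _ ≤ 2 ^ (ka k e * D) := Nat.pow_le_pow_right (by norm_num) (Nat.mul_le_mul_right _ hkab)

open Classical in
theorem residual_mo {k e t : ℕ} (he : 1 ≤ e) (F : Finset (Tm n)) (hF : ∀ T ∈ F, Con T)
    (f : (Fin n → Bool) → Bool) (hf : ∀ x, f x = true ↔ ∃ T ∈ F, Sat T x) (σ : Fin n → Bool)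
    (hk : ∀ i, (F.filter fun T => (i, !σ i) ∈ T).card ≤ k)
    (hD : d0 k e ≤ dg t) (hI : 8 * e * tinf (sf f) ≤ dg t + 1) (R : Finset (Fin n))
    (hq : Quiet f (dg t) (kk k e) (2 / (qq k e t : ℕ)) R) :
    ∑ S ∈ univ.filter (fun S : Finset (Fin n) => ¬ (S ⊆ R ∧ S.card ≤ dg t)),
      cf (sf f) S ^ 2 ≤ 1 / (2 * e) := by
  set D := dg t with hDdef
  obtain ⟨L, hLdef⟩ : ∃ L, L = ka k e * D := ⟨_, rfl⟩
  have hQ : qq k e t = 2 ^ L := by rw [hLdef]; rfl
  have he' : (1 : ℝ) ≤ e := by exact_mod_cast he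
  have hka1 : 1 ≤ ka k e := by unfold ka; omega
  have hD2 : 2 ≤ D := le_trans d0_pos hD
  have hL1 : 1 ≤ L := by
    rw [hLdef]
    exact Nat.mul_pos hka1 (by omega)
  have hkk : k + 1 ≤ kk k e := by
    unfold kk
    have : k + 1 ≤ (k + 1) * e := Nat.le_mul_of_pos_right _ he
    nlinarith
  have hkD : kk k e ≤ D := by
    have : kk k e ≤ d0 k e := by
      unfold d0
      omega
    omega
  set β : ℝ := Real.sqrt (2 * (1 / 2) ^ L) with hβ
  have hβ0 : 0 ≤ β := Real.sqrt_nonneg _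
  have hβ2 : β ^ 2 = 2 * (1 / 2) ^ L := Real.sq_sqrt (by positivity)
  have hth : (2 : ℝ) / ((qq k e t : ℕ) : ℝ) = 2 * (1 / 2) ^ L := by
    rw [hQ]
    push_cast
    rw [div_eq_mul_inv, one_div, inv_pow]
  have hpow1 : ((1 : ℝ) / 2) ^ L ≤ 1 := pow_le_one₀ (by norm_num) (by norm_num)
  have hpow0 : (0 : ℝ) < (1 / 2) ^ L := by positivity
  have hLβ : ((1 : ℝ) / 2) ^ L ≤ β := by
    refine Real.le_sqrt_of_sq_le ?_
    nlinarith
  -- small influences outside `R`
  have hinf : ∀ i, i ∉ R → infl (sf f) i ≤ ((1 / 2 : ℝ) ^ (4 * D)) ^ 2 := by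
    intro i hi
    have hcoef : ∀ S : Finset (Fin n), i ∈ S → S.card ≤ k + 1 → |cf (sf f) S| ≤ β := by
      intro S hiS hS
      have h1 := hq (S \ R) Finset.sdiff_disjoint ⟨i, Finset.mem_sdiff.2 ⟨hiS, hi⟩⟩
        ((Finset.card_le_card Finset.sdiff_subset).trans (by omega))
      rw [hth] at h1
      have h2 : cf (sf f) ((S ∩ R) ∪ (S \ R)) ^ 2 ≤
          ∑ U ∈ R.powerset.filter (fun U => U.card ≤ D), cf (sf f) (U ∪ (S \ R)) ^ 2 := by
        refine Finset.single_le_sum (f := fun U => cf (sf f) (U ∪ (S \ R)) ^ 2)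
          (fun U _ => sq_nonneg _) ?_
        rw [Finset.mem_filter, Finset.mem_powerset]
        exact ⟨Finset.inter_subset_right,
          (Finset.card_le_card Finset.inter_subset_left).trans (by omega)⟩
      have h3 : (S ∩ R) ∪ (S \ R) = S := by
        ext a
        simp only [Finset.mem_union, Finset.mem_inter, Finset.mem_sdiff]
        tauto
      rw [h3] at h2
      exact Real.abs_le_sqrt (h2.trans h1)
    have h1 := det hL1 F hF f hf i (σ i) (hk i) hcoef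
    have hX : (1 : ℝ) ≤ (2 * L : ℝ) ^ k := by
      refine one_le_pow₀ ?_
      have : (1 : ℝ) ≤ L := by exact_mod_cast hL1
      linarith
    have h2 : infl (sf f) i ≤ 11 * (2 * L : ℝ) ^ k * β := by
      refine h1.trans ?_
      have h3 : (2 * L : ℝ) ^ k * (2 * β + 8 * (1 / 2) ^ L) ≤ (2 * L : ℝ) ^ k * (10 * β) := by
        refine mul_le_mul_of_nonneg_left ?_ (by positivity)
        linarith
      nlinarith
    refine h2.trans ?_
    have h4 : (11 * (2 * L : ℝ) ^ k * β) ^ 2 ≤ (((1 / 2 : ℝ) ^ (4 * D)) ^ 2) ^ 2 := by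
      have h5 := numeric (k := k) he hD
      rw [← hLdef] at h5
      have h6 : (242 : ℝ) * (2 * L) ^ (2 * k) * 2 ^ (16 * D) ≤ 2 ^ L := by exact_mod_cast h5
      have h7 : (11 * (2 * L : ℝ) ^ k * β) ^ 2 = 242 * (2 * L : ℝ) ^ (2 * k) * (1 / 2) ^ L := by
        rw [mul_pow, mul_pow, hβ2, ← pow_mul, mul_comm k 2]
        ring
      have h8 : (((1 / 2 : ℝ) ^ (4 * D)) ^ 2) ^ 2 = (1 / 2) ^ (16 * D) := by
        rw [← pow_mul, ← pow_mul]
        congr 1
        ring
      rw [h7, h8]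
      have h9 : ((1 : ℝ) / 2) ^ (16 * D) * 2 ^ (16 * D) = 1 := by
        rw [← mul_pow]
        norm_num
      have h10 : ((1 : ℝ) / 2) ^ L * 2 ^ L = 1 := by
        rw [← mul_pow]
        norm_num
      have h11 : (0 : ℝ) < (1 / 2) ^ (16 * D) := by positivity
      calc 242 * (2 * L : ℝ) ^ (2 * k) * (1 / 2) ^ L
          = (242 * (2 * L : ℝ) ^ (2 * k) * 2 ^ (16 * D)) * (1 / 2) ^ L * (1 / 2) ^ (16 * D) := by
            linear_combination (-(242 * (2 * L : ℝ) ^ (2 * k) * (1 / 2) ^ L)) * h9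
        _ ≤ 2 ^ L * (1 / 2) ^ L * (1 / 2) ^ (16 * D) := by
            refine mul_le_mul_of_nonneg_right ?_ h11.le
            exact mul_le_mul_of_nonneg_right h6 hpow0.le
        _ = (1 / 2) ^ (16 * D) := by
            rw [mul_comm ((2 : ℝ) ^ L), h10, one_mul]
    exact abs_le_of_sq_le_sq' h4 (by positivity) |>.2
  set s : ℝ := (1 / 2 : ℝ) ^ (4 * D) with hs
  have hs0 : 0 ≤ s := by positivity
  have hT0 : 0 ≤ tinf (sf f) := tinf_nonneg _
  -- low degrees
  have hlow : ∑ S ∈ univ.filter (fun S : Finset (Fin n) => ¬ S ⊆ R ∧ S.card ≤ D),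
      cf (sf f) S ^ 2 ≤ 1 / (8 * e) := by
    have h1 : ∑ S ∈ univ.filter (fun S : Finset (Fin n) => ¬ S ⊆ R ∧ S.card ≤ D),
        cf (sf f) S ^ 2 ≤ ∑ i ∈ univ.filter (fun i : Fin n => i ∉ R),
          ∑ S ∈ univ.filter (fun S : Finset (Fin n) => i ∈ S ∧ S.card ≤ D), cf (sf f) S ^ 2 := by
      have e1 : ∑ i ∈ univ.filter (fun i : Fin n => i ∉ R),
          ∑ S ∈ univ.filter (fun S : Finset (Fin n) => i ∈ S ∧ S.card ≤ D), cf (sf f) S ^ 2 =
          ∑ S : Finset (Fin n), ∑ i ∈ univ.filter (fun i : Fin n => i ∉ R),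
            if i ∈ S ∧ S.card ≤ D then cf (sf f) S ^ 2 else 0 := by
        rw [Finset.sum_comm]
        refine Finset.sum_congr rfl fun i _ => ?_
        rw [Finset.sum_filter]
      rw [e1, Finset.sum_filter]
      refine Finset.sum_le_sum fun S _ => ?_
      by_cases h : ¬ S ⊆ R ∧ S.card ≤ D
      · rw [if_pos h]
        obtain ⟨i, hi1, hi2⟩ := Finset.not_subset.1 h.1
        have h2 : (if i ∈ S ∧ S.card ≤ D then cf (sf f) S ^ 2 else 0) ≤
            ∑ i ∈ univ.filter (fun i : Fin n => i ∉ R),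
              if i ∈ S ∧ S.card ≤ D then cf (sf f) S ^ 2 else 0 :=
          Finset.single_le_sum (f := fun i => if i ∈ S ∧ S.card ≤ D then cf (sf f) S ^ 2 else 0)
            (fun j _ => by split_ifs <;> positivity) (Finset.mem_filter.2 ⟨Finset.mem_univ _, hi2⟩)
        rw [if_pos ⟨hi1, h.2⟩] at h2
        exact h2
      · rw [if_neg h]
        exact Finset.sum_nonneg fun j _ => by split_ifs <;> positivity
    refine h1.trans ?_
    have h2 : ∑ i ∈ univ.filter (fun i : Fin n => i ∉ R),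
        ∑ S ∈ univ.filter (fun S : Finset (Fin n) => i ∈ S ∧ S.card ≤ D), cf (sf f) S ^ 2 ≤
        ∑ i ∈ univ.filter (fun i : Fin n => i ∉ R), 3 ^ D * (s * infl (sf f) i) := by
      refine Finset.sum_le_sum fun i hi => ?_
      exact low_infl (sf f) (sf_sq f) i s hs0 (hinf i (Finset.mem_filter.1 hi).2) D
    refine h2.trans ?_
    have h3 : ∑ i ∈ univ.filter (fun i : Fin n => i ∉ R), 3 ^ D * (s * infl (sf f) i) ≤
        3 ^ D * (s * tinf (sf f)) := by
      rw [← Finset.mul_sum, ← Finset.mul_sum]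
      refine mul_le_mul_of_nonneg_left ?_ (by positivity)
      refine mul_le_mul_of_nonneg_left ?_ hs0
      rw [← sum_infl]
      exact Finset.sum_le_sum_of_subset_of_nonneg (Finset.filter_subset _ _)
        fun i _ _ => infl_nonneg _ i
    refine h3.trans ?_
    have h4 : (3 : ℝ) ^ D * s * (D + 1) ≤ 1 := by
      have h5 : ((D : ℝ) + 1) ≤ 2 ^ D := by
        exact_mod_cast Nat.lt_two_pow_self (n := D)
      have h6 : (3 : ℝ) ^ D * s * 2 ^ D = (3 / 8) ^ D := by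
        rw [hs, pow_mul, ← mul_pow, ← mul_pow]
        norm_num
      calc (3 : ℝ) ^ D * s * (D + 1) ≤ (3 : ℝ) ^ D * s * 2 ^ D :=
            mul_le_mul_of_nonneg_left h5 (by positivity)
        _ = (3 / 8) ^ D := h6
        _ ≤ 1 := pow_le_one₀ (by norm_num) (by norm_num)
    rw [le_div_iff₀ (by positivity)]
    have h7 : 0 ≤ (3 : ℝ) ^ D * s := by positivity
    calc (3 : ℝ) ^ D * (s * tinf (sf f)) * (8 * e) = (3 ^ D * s) * (8 * e * tinf (sf f)) := by ring
      _ ≤ (3 ^ D * s) * (D + 1) := mul_le_mul_of_nonneg_left hI h7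
      _ ≤ 1 := h4
  -- high degrees
  have hhigh : ∑ S ∈ univ.filter (fun S : Finset (Fin n) => ¬ S.card ≤ D),
      cf (sf f) S ^ 2 ≤ 1 / (8 * e) := by
    have h1 : ((D : ℝ) + 1) * ∑ S ∈ univ.filter (fun S : Finset (Fin n) => ¬ S.card ≤ D),
        cf (sf f) S ^ 2 ≤ tinf (sf f) := by
      rw [Finset.mul_sum, Finset.sum_filter]
      unfold tinf
      refine Finset.sum_le_sum fun S _ => ?_
      by_cases h : S.card ≤ D
      · rw [if_neg (not_not.2 h)]
        positivity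
      · rw [if_pos h]
        refine mul_le_mul_of_nonneg_right ?_ (sq_nonneg _)
        push Not at h
        exact_mod_cast h
    have hD' : (0 : ℝ) < (D : ℝ) + 1 := by positivity
    rw [le_div_iff₀ (by positivity)]
    have h2 : 0 ≤ ∑ S ∈ univ.filter (fun S : Finset (Fin n) => ¬ S.card ≤ D),
        cf (sf f) S ^ 2 := Finset.sum_nonneg fun S _ => sq_nonneg _
    have h3 : ((D : ℝ) + 1) * ((∑ S ∈ univ.filter (fun S : Finset (Fin n) => ¬ S.card ≤ D),
        cf (sf f) S ^ 2) * (8 * e)) ≤ ((D : ℝ) + 1) * 1 := by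
      calc ((D : ℝ) + 1) * ((∑ S ∈ univ.filter (fun S : Finset (Fin n) => ¬ S.card ≤ D),
          cf (sf f) S ^ 2) * (8 * e)) = (8 * e) * (((D : ℝ) + 1) *
            ∑ S ∈ univ.filter (fun S : Finset (Fin n) => ¬ S.card ≤ D), cf (sf f) S ^ 2) := by
            ring
        _ ≤ (8 * e) * tinf (sf f) := mul_le_mul_of_nonneg_left h1 (by positivity)
        _ ≤ ((D : ℝ) + 1) * 1 := by linarith
    exact le_of_mul_le_mul_left h3 hD'
  have hsum : ∑ S ∈ univ.filter (fun S : Finset (Fin n) => ¬ (S ⊆ R ∧ S.card ≤ D)),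
      cf (sf f) S ^ 2 ≤
      ∑ S ∈ univ.filter (fun S : Finset (Fin n) => ¬ S ⊆ R ∧ S.card ≤ D), cf (sf f) S ^ 2 +
        ∑ S ∈ univ.filter (fun S : Finset (Fin n) => ¬ S.card ≤ D), cf (sf f) S ^ 2 := by
    rw [Finset.sum_filter, Finset.sum_filter, Finset.sum_filter, ← Finset.sum_add_distrib]
    refine Finset.sum_le_sum fun S _ => ?_
    have hsq : 0 ≤ cf (sf f) S ^ 2 := sq_nonneg _
    by_cases h1 : S ⊆ R <;> by_cases h2 : S.card ≤ D <;> simp [h1, h2]
  refine hsum.trans ((add_le_add hlow hhigh).trans ?_)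
  have h1 : (1 : ℝ) / (8 * e) + 1 / (8 * e) = 1 / 2 * (1 / (2 * e)) := by
    field_simp
    norm_num
  rw [h1]
  have h2 : (0 : ℝ) ≤ 1 / (2 * e) := by positivity
  linarith

end Pool.Agent.Helper92.MO
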